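import Mathlib
import Pool.Agent.Lib.MP_ed80cb_an.Assemble

open MeasureTheory Metric Set Filter Topology
open scoped ContDiff ENNReal

namespace Pool.Agent.Results.MP_ed80cb_an.CoerciveNotSufficient

/-- The Euclidean plane. -/
abbrev Plane := EuclideanSpace ℝ (Fin 2)

/-- `u` is a real valued element of `C_0^∞(Ω)`. -/
def TestFun (Ω : Set Plane) (u : Plane → ℝ) : Prop :=
  ContDiff ℝ ∞ u ∧ HasCompactSupport u ∧ tsupport u ⊆ Ω

/-- `Q_V(u) = ∫_Ω |∇u|² dx - ∫_Ω V u² dx`. -/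
noncomputable def Q (Ω : Set Plane) (V u : Plane → ℝ) : ℝ :=
  (∫ x in Ω, ‖gradient u x‖ ^ 2) - ∫ x in Ω, V x * u x ^ 2

/-- Weak coercivity of `Q_V`: for some nonempty open `U` with compact closure in `Ω` and some
`δ > 0` one has `Q_V(u) ≥ δ (∫_U u)²` for all test functions `u`. -/
def WeaklyCoercive (Ω : Set Plane) (V : Plane → ℝ) : Prop :=
  ∃ U : Set Plane, IsOpen U ∧ U.Nonempty ∧ IsCompact (closure U) ∧ closure U ⊆ Ω ∧
    ∃ δ : ℝ, 0 < δ ∧ ∀ u, TestFun Ω u → δ * (∫ x in U, u x) ^ 2 ≤ Q Ω V u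

/-- `lim_{r → 0+} sup_x ∫_{S ∩ B(x,r)} log(1/|x-y|) |V(y)| dy = 0`. -/
def KatoOn (S : Set Plane) (V : Plane → ℝ) : Prop :=
  Tendsto (fun r : ℝ => ⨆ x : Plane, ∫⁻ y in S ∩ ball x r,
    ENNReal.ofReal (Real.log (1 / ‖x - y‖) * |V y|)) (𝓝[>] 0) (𝓝 0)

/-- The local Kato class of `Ω`. -/
def LocalKato (Ω : Set Plane) (V : Plane → ℝ) : Prop :=
  ∀ K : Set Plane, K ⊆ Ω → IsCompact K → KatoOn K V

/-- The Trudinger-Moser inequality with remainder term for `(Ω, V)`: the integrals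
`∫_Ω exp(4πu²)` are bounded over all test functions with `Q_V(u) ≤ 1`. -/
def TrudingerMoser (Ω : Set Plane) (V : Plane → ℝ) : Prop :=
  ∃ C : ℝ, ∀ u, TestFun Ω u → Q Ω V u ≤ 1 → ∫ x in Ω, Real.exp (4 * Real.pi * u x ^ 2) ≤ C

lemma norm_gradient (u : Plane → ℝ) (x : Plane) : ‖gradient u x‖ = ‖fderiv ℝ u x‖ := by
  unfold gradient
  exact LinearIsometryEquiv.norm_map _ _

lemma setInt_grad {Ω : Set Plane} {u : Plane → ℝ} (hu : tsupport u ⊆ Ω) :
    ∫ x in Ω, ‖gradient u x‖ ^ 2 = ∫ x, ‖fderiv ℝ u x‖ ^ 2 := by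
  simp only [norm_gradient]
  refine setIntegral_eq_integral_of_forall_compl_eq_zero fun x hx => ?_
  have : x ∉ tsupport (fderiv ℝ u) := fun h => hx (hu (tsupport_fderiv_subset ℝ h))
  rw [image_eq_zero_of_notMem_tsupport this]
  simp

lemma setInt_pot {Ω : Set Plane} {u : Plane → ℝ} (V : Plane → ℝ) (hu : tsupport u ⊆ Ω) :
    ∫ x in Ω, V x * u x ^ 2 = ∫ x, V x * u x ^ 2 := by
  refine setIntegral_eq_integral_of_forall_compl_eq_zero fun x hx => ?_
  have : x ∉ tsupport u := fun h => hx (hu h)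
  rw [image_eq_zero_of_notMem_tsupport this]
  simp

/-- Weak coercivity does not imply the Trudinger-Moser inequality with remainder term, on any
bounded open set and for potentials of the (even global) Kato class. -/
theorem result (Ω : Set Plane) (hΩ : IsOpen Ω) (hne : Ω.Nonempty)
    (hb : Bornology.IsBounded Ω) (p : Plane) (hp : p ∈ closure Ω) (d : ℝ) (hd : 0 < d)
    (η : ℝ) (hη : 0 < η) (hη1 : η < 1) :
    ∃ V : Plane → ℝ, Measurable V ∧ (∀ x, 0 ≤ V x) ∧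
      (∀ x, V x ≠ 0 → x ∈ Ω ∧ dist x p < d) ∧
      ContDiffOn ℝ ∞ V {p}ᶜ ∧ KatoOn univ V ∧ LocalKato Ω V ∧
      (∀ u, TestFun Ω u → Integrable (fun x => V x * u x ^ 2) ∧
        ∫ x in Ω, V x * u x ^ 2 ≤ η * ∫ x in Ω, ‖gradient u x‖ ^ 2) ∧
      WeaklyCoercive Ω V ∧ ¬ TrudingerMoser Ω V := by
  obtain ⟨R, D, hD⟩ := PoolEd80.exists_dat (d := d) hΩ hne hb hp hd hη hη1
  refine ⟨D.V, D.V_measurable, D.V_nonneg, D.V_support, D.V_contDiffOn, D.kato univ,
    fun K _ _ => D.kato K, ?_, ?_, ?_⟩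
  · rintro u ⟨hu1, hu2, hu3⟩
    have h := D.int_V (hu1.of_le (by norm_num)) hu2 hu3
    rw [setInt_grad hu3, setInt_pot D.V hu3]
    exact h
  · obtain ⟨δ, hδ, h⟩ := D.coercive
    have hs := D.hs 0
    have hcl : closure (ball (D.c 0) (D.s 0 / 2)) ⊆ closedBall (D.c 0) (D.s 0 / 2) :=
      closure_ball_subset_closedBall
    refine ⟨ball (D.c 0) (D.s 0 / 2), isOpen_ball, ⟨D.c 0, mem_ball_self (by positivity)⟩,
      (isCompact_closedBall _ _).of_isClosed_subset isClosed_closure hcl,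
      hcl.trans ((closedBall_subset_ball (by linarith)).trans (D.hΩ 0)), δ, hδ, ?_⟩
    rintro u ⟨hu1, hu2, hu3⟩
    unfold Q
    rw [setInt_grad hu3, setInt_pot D.V hu3]
    exact h u (hu1.of_le (by norm_num)) hu2 hu3
  · rintro ⟨C, hC⟩
    obtain ⟨k, hk⟩ := exists_nat_gt C
    obtain ⟨u, hu1, hu2, hu3, hQ, hM⟩ := hD k
    have hV := (D.int_V (hu1.of_le (by norm_num)) hu2 hu3).1
    have hB := (D.int_B k (hu1.of_le (by norm_num)) hu2 hu3).1
    have hQV : Q Ω D.V u ≤ 1 := by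
      unfold Q
      rw [setInt_grad hu3, setInt_pot D.V hu3]
      have : ∫ x, D.B k x * u x ^ 2 ≤ ∫ x, D.V x * u x ^ 2 :=
        integral_mono hB hV fun x => mul_le_mul_of_nonneg_right (D.B_le_V k x) (sq_nonneg _)
      linarith
    have h1 := hC u ⟨hu1, hu2, hu3⟩ hQV
    have hcont : Continuous fun x => Real.exp (4 * Real.pi * u x ^ 2) :=
      Real.continuous_exp.comp (continuous_const.mul (hu1.continuous.pow 2))
    have hint : IntegrableOn (fun x => Real.exp (4 * Real.pi * u x ^ 2)) Ω := by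
      obtain ⟨ρ, hρ⟩ := hb.subset_closedBall (0 : Plane)
      exact (hcont.continuousOn.integrableOn_compact (isCompact_closedBall _ _)).mono_set hρ
    have h2 : ∫ x in ball (D.c k) (D.s k), Real.exp (4 * Real.pi * u x ^ 2) ≤
        ∫ x in Ω, Real.exp (4 * Real.pi * u x ^ 2) :=
      setIntegral_mono_set hint (Eventually.of_forall fun x => (Real.exp_pos _).le)
        (LE.le.eventuallyLE (D.hΩ k))
    linarith

end Pool.Agent.Results.MP_ed80cb_an.CoerciveNotSufficient
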